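import Mathlib
import Pool.Agent.Helper12_NGR.Stmts

/-!
# Subgroups of a group with a Noetherian integral group ring

If the integral group ring of a group is (left) Noetherian, then all the subgroups are finitely
generated and their integral group rings are Noetherian.
-/

set_option autoImplicit false

universe u

namespace Pool.Agent.NGR.H63

variable {G : Type u} [Group G]

/-- The inclusion of the group ring of a subgroup. -/
noncomputable def inc (H : Subgroup G) : MonoidAlgebra ℤ H →+* MonoidAlgebra ℤ G :=
  MonoidAlgebra.mapDomainRingHom ℤ H.subtype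

/-- Restriction of the support to a subgroup. -/
noncomputable def ret (H : Subgroup G) : MonoidAlgebra ℤ G →+ MonoidAlgebra ℤ H :=
  MonoidAlgebra.comapDomainAddMonoidHom (R := ℤ) (H.subtype : H → G) H.subtype_injective

theorem inc_single (H : Subgroup G) (h : H) (n : ℤ) :
    inc H (MonoidAlgebra.single h n) = MonoidAlgebra.single (h : G) n := by
  simp [inc]

theorem ret_single (H : Subgroup G) (h : H) (n : ℤ) :
    ret H (MonoidAlgebra.single (h : G) n) = MonoidAlgebra.single h n :=
  MonoidAlgebra.comapDomain_single_map (H.subtype : H → G) H.subtype_injective h n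

theorem ret_single_of_notMem (H : Subgroup G) {g : G} (hg : g ∉ H) (n : ℤ) :
    ret H (MonoidAlgebra.single g n) = 0 := by
  refine MonoidAlgebra.comapDomain_single_of_not_mem_range (f := (H.subtype : H → G)) ?_
    H.subtype_injective
  rintro ⟨h, rfl⟩
  exact hg h.2

theorem ret_inc (H : Subgroup G) (a : MonoidAlgebra ℤ H) : ret H (inc H a) = a := by
  induction a using MonoidAlgebra.induction_linear with
  | zero => simp
  | add x y hx hy => rw [map_add, map_add, hx, hy]
  | single h n => rw [inc_single, ret_single]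

theorem ret_mul (H : Subgroup G) (x : MonoidAlgebra ℤ G) (a : MonoidAlgebra ℤ H) :
    ret H (x * inc H a) = ret H x * a := by
  induction x using MonoidAlgebra.induction_linear with
  | zero => simp
  | add x y hx hy => rw [add_mul, map_add, map_add, hx, hy, add_mul]
  | single g n =>
    induction a using MonoidAlgebra.induction_linear with
    | zero => simp
    | add x y hx hy => rw [map_add, mul_add, map_add, hx, hy, mul_add]
    | single h m =>
      rw [inc_single, MonoidAlgebra.single_mul_single]
      by_cases hg : g ∈ H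
      · have h1 : MonoidAlgebra.single (g * (h : G)) (n * m) =
            MonoidAlgebra.single (((⟨g, hg⟩ * h : H)) : G) (n * m) := rfl
        have h2 : MonoidAlgebra.single g n = MonoidAlgebra.single (((⟨g, hg⟩ : H)) : G) n := rfl
        rw [h1, h2, ret_single, ret_single, MonoidAlgebra.single_mul_single]
      · have h3 : g * (h : G) ∉ H := fun hgh => hg ((H.mul_mem_cancel_right h.2).1 hgh)
        rw [ret_single_of_notMem H h3, ret_single_of_notMem H hg, zero_mul]

theorem ret_mul_mem (H : Subgroup G) (I : Ideal (MonoidAlgebra ℤ H)) {x : MonoidAlgebra ℤ G}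
    (hx : x ∈ Submodule.span (MonoidAlgebra ℤ G) (inc H '' (I : Set (MonoidAlgebra ℤ H)))) :
    ∀ r : MonoidAlgebra ℤ G, ret H (r * x) ∈ I := by
  induction hx using Submodule.span_induction with
  | mem x h =>
    obtain ⟨a, ha, rfl⟩ := h
    intro r
    rw [ret_mul]
    exact I.mul_mem_left _ ha
  | zero => intro r; simp
  | add x y _ _ hx hy => intro r; rw [mul_add, map_add]; exact I.add_mem (hx r) (hy r)
  | smul s x _ hx => intro r; rw [smul_eq_mul, ← mul_assoc]; exact hx (r * s)

theorem ret_mem (H : Subgroup G) (I : Ideal (MonoidAlgebra ℤ H)) {x : MonoidAlgebra ℤ G}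
    (hx : x ∈ I.map (inc H)) : ret H x ∈ I := by
  have h := ret_mul_mem H I hx 1
  rwa [one_mul] at h

theorem mem_of_inc_mem (H : Subgroup G) (I : Ideal (MonoidAlgebra ℤ H)) {a : MonoidAlgebra ℤ H}
    (ha : inc H a ∈ I.map (inc H)) : a ∈ I := by
  have h := ret_mem H I ha
  rwa [ret_inc] at h

/-- The group ring of a subgroup is Noetherian. -/
theorem noeth_sub (h : IsNoetherianRing (MonoidAlgebra ℤ G)) (H : Subgroup G) :
    IsNoetherianRing (MonoidAlgebra ℤ H) := by
  have hmono : StrictMono (fun I : Ideal (MonoidAlgebra ℤ H) => I.map (inc H)) := by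
    intro I J hIJ
    refine lt_of_le_of_ne (Ideal.map_mono hIJ.le) fun heq => ?_
    refine hIJ.not_ge fun x hx => mem_of_inc_mem H I ?_
    have heq' : I.map (inc H) = J.map (inc H) := heq
    rw [heq']
    exact Ideal.mem_map_of_mem _ hx
  have h1 : WellFoundedGT (Ideal (MonoidAlgebra ℤ G)) := isNoetherian_iff'.1 h
  have h2 : WellFoundedGT (Ideal (MonoidAlgebra ℤ H)) := hmono.wellFoundedGT
  exact isNoetherian_iff'.2 h2

/-- Left ideal generated by the elements `k - 1` with `k` in a subgroup. -/
noncomputable def aug (K : Subgroup G) : Ideal (MonoidAlgebra ℤ G) :=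
  Ideal.span ((fun k : G => MonoidAlgebra.single k (1 : ℤ) - 1) '' (K : Set G))

theorem aug_mono {K L : Subgroup G} (h : K ≤ L) : aug K ≤ aug L :=
  Ideal.span_mono (Set.image_mono h)

/-- The projection of the group ring onto the permutation module of the cosets. -/
noncomputable def coset (K : Subgroup G) : MonoidAlgebra ℤ G →+ ((G ⧸ K) →₀ ℤ) where
  toFun x := Finsupp.mapDomain (fun g : G => (g : G ⧸ K)) x.coeff
  map_zero' := by simp
  map_add' x y := by simp [Finsupp.mapDomain_add]

theorem coset_single (K : Subgroup G) (g : G) (n : ℤ) :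
    coset K (MonoidAlgebra.single g n) = Finsupp.single (g : G ⧸ K) n := by
  simp [coset, Finsupp.mapDomain_single]

theorem coset_mul (K : Subgroup G) {k : G} (hk : k ∈ K) (x : MonoidAlgebra ℤ G) :
    coset K (x * (MonoidAlgebra.single k (1 : ℤ) - 1)) = 0 := by
  rw [mul_sub, mul_one, map_sub, sub_eq_zero]
  induction x using MonoidAlgebra.induction_linear with
  | zero => simp
  | add x y hx hy => rw [add_mul, map_add, map_add, hx, hy]
  | single g n =>
    rw [MonoidAlgebra.single_mul_single, mul_one, coset_single, coset_single,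
      QuotientGroup.mk_mul_of_mem g hk]

theorem coset_aug (K : Subgroup G) {x : MonoidAlgebra ℤ G} (hx : x ∈ aug K) :
    ∀ r : MonoidAlgebra ℤ G, coset K (r * x) = 0 := by
  change x ∈ Submodule.span (MonoidAlgebra ℤ G)
    ((fun k : G => MonoidAlgebra.single k (1 : ℤ) - 1) '' (K : Set G)) at hx
  induction hx using Submodule.span_induction with
  | mem x h =>
    obtain ⟨k, hk, rfl⟩ := h
    intro r
    exact coset_mul K hk r
  | zero => intro r; simp
  | add x y _ _ hx hy => intro r; rw [mul_add, map_add, hx r, hy r, add_zero]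
  | smul s x _ hx => intro r; rw [smul_eq_mul, ← mul_assoc]; exact hx (r * s)

theorem mem_of_single_sub_mem (K : Subgroup G) {g : G}
    (hg : MonoidAlgebra.single g (1 : ℤ) - 1 ∈ aug K) : g ∈ K := by
  have h := coset_aug K hg 1
  rw [one_mul, map_sub, MonoidAlgebra.one_def, coset_single, coset_single, sub_eq_zero] at h
  have h1 := Finsupp.single_left_injective (one_ne_zero : (1 : ℤ) ≠ 0) h
  have h2 : ((1 : G) : G ⧸ K) = (g : G ⧸ K) := h1.symm
  rw [QuotientGroup.eq] at h2
  simpa using h2

/-- A group with Noetherian group ring is finitely generated. -/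
theorem fg_top (h : IsNoetherianRing (MonoidAlgebra ℤ G)) : (⊤ : Subgroup G).FG := by
  have h1 : WellFoundedGT (Ideal (MonoidAlgebra ℤ G)) := isNoetherian_iff'.1 h
  obtain ⟨I, ⟨K, hK, rfl⟩, hmax⟩ := h1.wf.has_min
    {I : Ideal (MonoidAlgebra ℤ G) | ∃ K : Subgroup G, K.FG ∧ I = aug K}
    ⟨aug ⊥, ⊥, Subgroup.FG.bot, rfl⟩
  have h2 : K = ⊤ := by
    rw [eq_top_iff]
    intro g _
    have h3 : (K ⊔ Subgroup.zpowers g).FG :=
      Subgroup.FG.sup hK ⟨{g}, by rw [Finset.coe_singleton, Subgroup.zpowers_eq_closure]⟩
    have h4 : aug K ≤ aug (K ⊔ Subgroup.zpowers g) := aug_mono le_sup_left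
    have h5 : aug K = aug (K ⊔ Subgroup.zpowers g) := by
      by_contra hne
      exact hmax _ ⟨_, h3, rfl⟩ (lt_of_le_of_ne h4 hne)
    refine mem_of_single_sub_mem K ?_
    rw [h5]
    exact Ideal.subset_span ⟨g, (le_sup_right : Subgroup.zpowers g ≤ _)
      (Subgroup.mem_zpowers g), rfl⟩
  rw [← h2]
  exact hK

/-- FGS: subgroups of a group with Noetherian group ring are finitely generated and have Noetherian
group rings. -/
theorem fgs : FgsStmt := by
  intro G _ h H
  have h1 := noeth_sub h H
  exact ⟨(Group.fg_iff_subgroup_fg H).1 ⟨fg_top h1⟩, h1⟩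

end Pool.Agent.NGR.H63
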